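import Pool.Agent.R254.UA.Stm
import Pool.Agent.R254.UA.Cen
import Pool.Agent.R254.UA.Sel
import Pool.Agent.R254.UA.Rec
import Pool.Agent.R254.UA.Cov
import Pool.Agent.R254.UA.Var
import Pool.Agent.R254.UA.Mean
import Pool.Agent.R254.UA.Conc
import Pool.Agent.R254.UA.TailCount
import Pool.Agent.R254.UA.CoreThm
import Pool.Agent.R254.UA.Main

/-!
# MP_6a6beb_pr: early vertices among the most central vertices of a uniform attachment tree

Full affirmative answer to Q1: `R_{K,n}(c)` converges to `φ(c) = c (1 - e^{-1/c})` in probability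
as `K → ∞`, with `n → ∞` first, for every `c > 1`.
-/

open Filter
open scoped Topology

namespace Pool.Agent.Results.MP_6a6beb_pr.EarlyCentral

open Pool.Agent.R254.UA

theorem result : ∀ c : ℝ, 1 < c → ∀ δ : ℝ, 0 < δ →
    Tendsto (fun K : ℕ => limsup (fun n : ℕ => probDev n K c δ) atTop) atTop (𝓝 0) :=
  have hSel : SelStmt := sel_of_cen cenStmt
  have hVar : VarStmt := var_stmt cov
  main_of_core (core hSel (conc tail hVar mean) (tailCount_of tail mean))

end Pool.Agent.Results.MP_6a6beb_pr.EarlyCentral
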